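import Pool.Agent.W_e21d3a_h69.U4

set_option autoImplicit false

/-!
# U5: an errorless algorithm on a set of density one makes the density computable
-/

namespace Pool.Agent.W_e21d3a_h69

open Pool.Agent.W_e21d3a_h93

/-- two left-c.e. reals with sum `1` are computable -/
theorem compReal_of_leftCE {x y : ℝ} (hxy : x + y = 1)
    (hx : ∃ q : ℕ → ℕ, Computable q ∧ IsLUB (Set.range fun k : ℕ => (q k : ℝ) / (k + 1)) x)
    (hy : ∃ q : ℕ → ℕ, Computable q ∧ IsLUB (Set.range fun k : ℕ => (q k : ℝ) / (k + 1)) y) :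
    CompReal x := by
  obtain ⟨q1, hq1, hx1, hx2⟩ := hx
  obtain ⟨q2, hq2, hy1, hy2⟩ := hy
  set T : ℕ → ℕ → Bool := fun n k => decide ((k.unpair.1 + 1) * (k.unpair.2 + 1) * n <
    (q1 k.unpair.1 * (k.unpair.2 + 1) + q2 k.unpair.2 * (k.unpair.1 + 1)) * (n + 1)) with hT
  have hTc : Computable₂ T := by
    have hadd : Computable₂ (fun a b : ℕ => a + b) := Primrec.nat_add.to_comp
    have hmul : Computable₂ (fun a b : ℕ => a * b) := Primrec.nat_mul.to_comp
    have hlt : Computable₂ (fun a b : ℕ => decide (a < b)) := Primrec.nat_lt.decide.to_comp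
    have u1 : Computable (fun p : ℕ × ℕ => p.2.unpair.1) :=
      Computable.fst.comp (Computable.unpair.comp Computable.snd)
    have u2 : Computable (fun p : ℕ × ℕ => p.2.unpair.2) :=
      Computable.snd.comp (Computable.unpair.comp Computable.snd)
    have v1 : Computable (fun p : ℕ × ℕ => p.2.unpair.1 + 1) := hadd.comp u1 (Computable.const 1)
    have v2 : Computable (fun p : ℕ × ℕ => p.2.unpair.2 + 1) := hadd.comp u2 (Computable.const 1)
    have w : Computable (fun p : ℕ × ℕ => p.1 + 1) := hadd.comp Computable.fst (Computable.const 1)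
    exact hlt.comp (hmul.comp (hmul.comp v1 v2) Computable.fst)
      (hmul.comp (hadd.comp (hmul.comp (hq1.comp u1) v2) (hmul.comp (hq2.comp u2) v1)) w)
  have hex : ∀ n, ∃ k, T n k = true := by
    intro n
    have hn : (0 : ℝ) < 1 / (2 * ((n : ℝ) + 1)) := by positivity
    have h1 : ∃ k1 : ℕ, x - 1 / (2 * ((n : ℝ) + 1)) < (q1 k1 : ℝ) / (k1 + 1) := by
      by_contra hcon
      push Not at hcon
      have := hx2 (show x - 1 / (2 * ((n : ℝ) + 1)) ∈ upperBounds _ by
        rintro _ ⟨k, rfl⟩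
        exact hcon k)
      linarith
    have h2 : ∃ k2 : ℕ, y - 1 / (2 * ((n : ℝ) + 1)) < (q2 k2 : ℝ) / (k2 + 1) := by
      by_contra hcon
      push Not at hcon
      have := hy2 (show y - 1 / (2 * ((n : ℝ) + 1)) ∈ upperBounds _ by
        rintro _ ⟨k, rfl⟩
        exact hcon k)
      linarith
    obtain ⟨k1, hk1⟩ := h1
    obtain ⟨k2, hk2⟩ := h2
    refine ⟨Nat.pair k1 k2, ?_⟩
    simp only [hT, Nat.unpair_pair, decide_eq_true_eq]
    have h3 : 1 - 1 / ((n : ℝ) + 1) < (q1 k1 : ℝ) / (k1 + 1) + (q2 k2 : ℝ) / (k2 + 1) := by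
      have : 1 / (2 * ((n : ℝ) + 1)) + 1 / (2 * ((n : ℝ) + 1)) = 1 / ((n : ℝ) + 1) := by
        field_simp
        norm_num
      linarith
    have a1 : (0 : ℝ) < (k1 : ℝ) + 1 := by positivity
    have a2 : (0 : ℝ) < (k2 : ℝ) + 1 := by positivity
    have a3 : (0 : ℝ) < (n : ℝ) + 1 := by positivity
    have h4 := mul_lt_mul_of_pos_right h3 (mul_pos (mul_pos a1 a2) a3)
    have e1 : (1 - 1 / ((n : ℝ) + 1)) * (((k1 : ℝ) + 1) * (k2 + 1) * (n + 1)) =
        ((k1 : ℝ) + 1) * (k2 + 1) * n := by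
      field_simp
      ring
    have e2 : ((q1 k1 : ℝ) / (k1 + 1) + (q2 k2 : ℝ) / (k2 + 1)) * (((k1 : ℝ) + 1) * (k2 + 1) * (n + 1)) =
        ((q1 k1 : ℝ) * (k2 + 1) + q2 k2 * (k1 + 1)) * (n + 1) := by
      field_simp
    rw [e1, e2] at h4
    exact_mod_cast h4
  have h2 : Partrec fun n : ℕ => Nat.rfind fun k => (Part.some (T n k) : Part Bool) :=
    Partrec.rfind (p := fun n k : ℕ => (Part.some (T n k) : Part Bool)) hTc
  have h3 : ∀ n, ∃ k, k ∈ Nat.rfind fun k => (Part.some (T n k) : Part Bool) := by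
    intro n
    rw [← Part.dom_iff_mem, Nat.rfind_dom]
    obtain ⟨k, hk⟩ := hex n
    exact ⟨k, by simpa using hk, fun _ => trivial⟩
  choose K hK using h3
  have hKc : Computable K := h2.of_eq_tot hK
  have hKT : ∀ n, T n (K n) = true := by
    intro n
    have := Nat.rfind_spec (hK n)
    rw [Part.mem_some_iff] at this
    exact this.symm
  refine ⟨fun n => (q1 (K n).unpair.1 * (n + 1) + (K n).unpair.1) / ((K n).unpair.1 + 1), ?_, ?_⟩
  · have hadd : Computable₂ (fun a b : ℕ => a + b) := Primrec.nat_add.to_comp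
    have hmul : Computable₂ (fun a b : ℕ => a * b) := Primrec.nat_mul.to_comp
    have hdiv : Computable₂ (fun a b : ℕ => a / b) := Primrec.nat_div.to_comp
    have u1 : Computable (fun n : ℕ => (K n).unpair.1) :=
      Computable.fst.comp (Computable.unpair.comp hKc)
    exact hdiv.comp (hadd.comp (hmul.comp (hq1.comp u1) Computable.succ) u1)
      (hadd.comp u1 (Computable.const 1))
  · intro n
    have h4 := hKT n
    simp only [hT, decide_eq_true_eq] at h4
    set k1 := (K n).unpair.1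
    set k2 := (K n).unpair.2
    have a1 : (0 : ℝ) < (k1 : ℝ) + 1 := by positivity
    have a2 : (0 : ℝ) < (k2 : ℝ) + 1 := by positivity
    have a3 : (0 : ℝ) < (n : ℝ) + 1 := by positivity
    have h5 : ((k1 : ℝ) + 1) * (k2 + 1) * n < ((q1 k1 : ℝ) * (k2 + 1) + q2 k2 * (k1 + 1)) * (n + 1) := by
      exact_mod_cast h4
    have h6 : (q1 k1 : ℝ) / (k1 + 1) ≤ x := hx1 ⟨k1, rfl⟩
    have h7 : (q2 k2 : ℝ) / (k2 + 1) ≤ y := hy1 ⟨k2, rfl⟩
    rw [div_le_iff₀ a1] at h6
    rw [div_le_iff₀ a2] at h7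
    -- x (n+1) (k1+1) < q1 (n+1) + (k1+1)
    have h8 : x * (n + 1) * (k1 + 1) < q1 k1 * (n + 1) + (k1 + 1) := by
      have h9 : (q2 k2 : ℝ) * (k1 + 1) * (n + 1) ≤ (1 - x) * (k2 + 1) * (k1 + 1) * (n + 1) := by
        have : y = 1 - x := by linarith
        rw [this] at h7
        have := mul_le_mul_of_nonneg_right (mul_le_mul_of_nonneg_right h7 a1.le) a3.le
        linarith
      have h10 : ((k1 : ℝ) + 1) * (k2 + 1) * n <
          (q1 k1 : ℝ) * (k2 + 1) * (n + 1) + (1 - x) * (k2 + 1) * (k1 + 1) * (n + 1) := by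
        nlinarith
      have h11 : (k2 + 1 : ℝ) * (x * (n + 1) * (k1 + 1)) < (k2 + 1 : ℝ) * (q1 k1 * (n + 1) + (k1 + 1)) := by
        nlinarith
      exact lt_of_mul_lt_mul_left h11 a2.le
    set Q : ℕ := (q1 k1 * (n + 1) + k1) / (k1 + 1) with hQ
    have h12 : Q * (k1 + 1) ≤ q1 k1 * (n + 1) + k1 := Nat.div_mul_le_self _ _
    have h13 : q1 k1 * (n + 1) + k1 < (Q + 1) * (k1 + 1) := by
      have h0 := Nat.lt_mul_div_succ (q1 k1 * (n + 1) + k1) (Nat.succ_pos k1)
      calc q1 k1 * (n + 1) + k1 < (k1 + 1) * (Q + 1) := h0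
        _ = (Q + 1) * (k1 + 1) := Nat.mul_comm _ _
    have h14 : (Q : ℝ) * (k1 + 1) ≤ q1 k1 * (n + 1) + k1 := by exact_mod_cast h12
    have h15 : q1 k1 * ((n : ℝ) + 1) + k1 + 1 ≤ (Q + 1) * (k1 + 1) := by exact_mod_cast h13
    rw [abs_le]
    constructor
    · -- -1 ≤ x (n+1) - Q
      have h16 : (Q : ℝ) * (k1 + 1) ≤ (x * (n + 1) + 1) * (k1 + 1) := by nlinarith
      have := le_of_mul_le_mul_right h16 a1
      linarith
    · have h16 : (x * (n + 1)) * (k1 + 1) ≤ ((Q : ℝ) + 1) * (k1 + 1) := by nlinarith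
      have := le_of_mul_le_mul_right h16 a1
      linarith

/-- the points whose component contains a recognised non-member -/
theorem converse (S : Set ℕ) (hS : ∀ n, 0 < n → (n ∈ S ↔ col n ∈ S))
    (hc : REPred (fun n => n ∈ S)) (s : ℝ) (hs : HasDens S s) (φ : ℕ →. Bool)
    (hφ : Errorless S φ) (hD : HasDens {n | (φ n).Dom} 1) : CompReal s := by
  classical
  obtain ⟨hφ1, hφ2⟩ := hφ
  set N : Set ℕ := {x | 0 < x ∧ ∃ z, 0 < z ∧ false ∈ φ z ∧ x ∈ Comp z} with hN
  have hNinv : ∀ n, 0 < n → (n ∈ N ↔ col n ∈ N) := by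
    intro n hn
    simp only [hN, Set.mem_setOf_eq]
    constructor
    · rintro ⟨_, z, hz, h1, h2⟩
      exact ⟨col_pos hn, z, hz, h1, (Comp_inv z n hn).1 h2⟩
    · rintro ⟨_, z, hz, h1, h2⟩
      exact ⟨hn, z, hz, h1, (Comp_inv z n hn).2 h2⟩
  have hdis : ∀ n, 0 < n → n ∈ S → n ∉ N := by
    rintro n hn hnS ⟨_, z, hz, h1, h2⟩
    have h3 := (Comp_sub hS hz h2).1 hnS
    have h4 := (hφ2 z hz false h1).2 h3
    exact absurd h4 (by decide)
  obtain ⟨t, ht⟩ := dens_exists N hNinv
  have hsum : s + t = 1 := by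
    have h1 := hasDens_union hdis hs ht
    have h2 : HasDens (S ∪ N) 1 := by
      refine dens_one_of_superset hD ?_
      intro n hn hn0
      obtain ⟨b, hb⟩ := Part.dom_iff_mem.1 hn
      cases b with
      | true => exact Or.inl ((hφ2 n hn0 true hb).1 rfl)
      | false => exact Or.inr ⟨hn0, n, hn0, hb, Comp_self hn0⟩
    exact W_e21d3a_h93.G3c_unique h1 h2
  have hre0 : REPred (fun z : ℕ => 0 < z ∧ false ∈ φ z) := by
    have h1 : Partrec (fun z : ℕ => (φ z).bind (fun b => cond (b || decide (z = 0))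
        (Part.none : Part Unit) (Part.some ()))) := by
      refine hφ1.bind ?_
      have h2 : Computable (fun p : ℕ × Bool => (p.2 || decide (p.1 = 0))) :=
        Primrec.or.to_comp.comp Computable.snd
          ((Primrec.eq.comp Primrec.fst (Primrec.const 0)).decide).to_comp
      exact Partrec.cond h2 Partrec.none (Computable.const ()).partrec
    refine h1.dom_re.of_eq fun z => ?_
    rw [Part.dom_iff_mem]
    constructor
    · rintro ⟨u, hu⟩
      rw [Part.mem_bind_iff] at hu
      obtain ⟨b, hb, hu⟩ := hu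
      cases hb' : (b || decide (z = 0)) with
      | true =>
        rw [hb'] at hu
        exact absurd hu (Part.notMem_none _)
      | false =>
        rw [Bool.or_eq_false_iff] at hb'
        obtain ⟨h3, h4⟩ := hb'
        subst h3
        refine ⟨?_, hb⟩
        have := of_decide_eq_false h4
        omega
    · rintro ⟨hz, hb⟩
      refine ⟨(), ?_⟩
      rw [Part.mem_bind_iff]
      refine ⟨false, hb, ?_⟩
      have : decide (z = 0) = false := decide_eq_false (by omega)
      rw [this]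
      simp
  have hreN : REPred (fun n => n ∈ N) := by
    obtain ⟨g, hg, hgg, _⟩ := exists_stages _ hre0
    have h1 : Computable₂ (fun x k : ℕ =>
        (g k.unpair.1.unpair.1 k.unpair.1.unpair.2 &&
          decide (col^[k.unpair.2.unpair.1] x = col^[k.unpair.2.unpair.2] k.unpair.1.unpair.1))
          && decide (0 < x)) := by
      have w1 : Primrec (fun p : ℕ × ℕ => p.2.unpair.1) :=
        Primrec.fst.comp (Primrec.unpair.comp Primrec.snd)
      have w2 : Primrec (fun p : ℕ × ℕ => p.2.unpair.2) :=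
        Primrec.snd.comp (Primrec.unpair.comp Primrec.snd)
      have w11 := Primrec.fst.comp (Primrec.unpair.comp w1)
      have w12 := Primrec.snd.comp (Primrec.unpair.comp w1)
      have w21 := Primrec.fst.comp (Primrec.unpair.comp w2)
      have w22 := Primrec.snd.comp (Primrec.unpair.comp w2)
      have e1 : Computable (fun p : ℕ × ℕ => g p.2.unpair.1.unpair.1 p.2.unpair.1.unpair.2) :=
        hg.comp w11.to_comp w12.to_comp
      have f1 : Primrec (fun p : ℕ × ℕ => col^[p.2.unpair.2.unpair.1] p.1) :=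
        iter_primrec.comp w21 Primrec.fst
      have f2 : Primrec (fun p : ℕ × ℕ => col^[p.2.unpair.2.unpair.2] p.2.unpair.1.unpair.1) :=
        iter_primrec.comp w22 w11
      have e2 := ((Primrec.eq.comp f1 f2).decide).to_comp
      have e3 : Computable (fun p : ℕ × ℕ => decide (0 < p.1)) :=
        ((Primrec.nat_lt.comp (Primrec.const 0) Primrec.fst).decide).to_comp
      exact Primrec.and.to_comp.comp (Primrec.and.to_comp.comp e1 e2) e3
    have h3 : Partrec fun x : ℕ => Nat.rfind fun k => (Part.some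
        ((g k.unpair.1.unpair.1 k.unpair.1.unpair.2 &&
          decide (col^[k.unpair.2.unpair.1] x = col^[k.unpair.2.unpair.2] k.unpair.1.unpair.1))
          && decide (0 < x)) : Part Bool) :=
      Partrec.rfind (p := fun x k : ℕ => (Part.some
        ((g k.unpair.1.unpair.1 k.unpair.1.unpair.2 &&
          decide (col^[k.unpair.2.unpair.1] x = col^[k.unpair.2.unpair.2] k.unpair.1.unpair.1))
          && decide (0 < x)) : Part Bool)) h1
    refine h3.dom_re.of_eq fun x => Nat.rfind_dom.trans ?_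
    constructor
    · rintro ⟨k, hk, _⟩
      have hk' : ((g k.unpair.1.unpair.1 k.unpair.1.unpair.2 &&
          decide (col^[k.unpair.2.unpair.1] x = col^[k.unpair.2.unpair.2] k.unpair.1.unpair.1))
          && decide (0 < x)) = true := by simpa using hk
      rw [Bool.and_eq_true, Bool.and_eq_true] at hk'
      obtain ⟨⟨h4, h5⟩, h6⟩ := hk'
      have hx := of_decide_eq_true h6
      obtain ⟨hz, hzφ⟩ := (hgg _).2 ⟨_, h4⟩
      exact ⟨hx, _, hz, hzφ, hx, _, _, of_decide_eq_true h5⟩
    · rintro ⟨hx, z, hz, hzφ, _, a, b, hab⟩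
      obtain ⟨u, hu⟩ := (hgg z).1 ⟨hz, hzφ⟩
      refine ⟨Nat.pair (Nat.pair z u) (Nat.pair a b), ?_, fun _ => trivial⟩
      simp [Nat.unpair_pair, hu, hab, hx]
  exact compReal_of_leftCE hsum (density_left_ce S hS hc s hs) (density_left_ce N hNinv hreN t ht)

end Pool.Agent.W_e21d3a_h69
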