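import Pool.Agent.W_e21d3a_h93.G3a

set_option autoImplicit false

/-!
# U1: the rate of convergence for the density of invariant sets, with constants independent of the set

Same proofs as `cauchy_scales`, `G3a_limit`, `wsum_rate` (W_e21d3a_h93), the constants taken out.
-/

namespace Pool.Agent.W_e21d3a_h69

open Pool.Agent.W_e21d3a_h93

theorem cauchy_scales_u {C : ℝ} (hC : 0 < C) (y0 : ℕ) :
    ∃ C' : ℝ, ∃ y1 : ℕ, ∀ F : ℕ → ℝ,
      (∀ y ≥ y0, ∀ y' ≥ y, lx y' ≤ 51 / 50 * lx y → |F y' - F y| ≤ C * (lx y) ^ (-(1 : ℝ) / 5)) →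
      ∀ y ≥ y1, ∀ y' ≥ y, |F y' - F y| ≤ C' * (lx y) ^ (-(1 : ℝ) / 5) := by
  set ρ : ℝ := (101 / 100 : ℝ) ^ (-(1 : ℝ) / 5) with hρ
  have hρ1 : ρ < 1 := Real.rpow_lt_one_of_one_lt_of_neg (by norm_num) (by norm_num)
  have hρ0 : 0 < ρ := Real.rpow_pos_of_pos (by norm_num) _
  set C' : ℝ := C / (1 - ρ) with hC'
  have hC'C : C = C' * (1 - ρ) := by
    rw [hC']
    field_simp
    rw [div_self (by linarith)]
  have hC'0 : 0 < C' := div_pos hC (by linarith)
  have hCC' : C ≤ C' := by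
    rw [hC'C]
    nlinarith
  refine ⟨C', max y0 ⌈Real.exp 100⌉₊, ?_⟩
  intro F h
  have main : ∀ d : ℕ, ∀ y ≥ max y0 ⌈Real.exp 100⌉₊, ∀ y', y' = y + d →
      |F y' - F y| ≤ C' * (lx y) ^ (-(1 : ℝ) / 5) := by
    intro d
    induction d using Nat.strong_induction_on with
    | _ d ih =>
      intro y hy y' hy'
      have hyy0 : y0 ≤ y := le_trans (le_max_left _ _) hy
      have hye : Real.exp 100 ≤ (y : ℝ) :=
        le_trans (Nat.le_ceil _) (by exact_mod_cast le_trans (le_max_right _ _) hy)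
      have hypos : (0 : ℝ) < y := lt_of_lt_of_le (Real.exp_pos _) hye
      have hL : 100 ≤ lx y := by
        unfold lx
        calc (100 : ℝ) = Real.log (Real.exp 100) := (Real.log_exp _).symm
          _ ≤ Real.log y := Real.log_le_log (Real.exp_pos _) hye
      have hpw : 0 < (lx y) ^ (-(1 : ℝ) / 5) := Real.rpow_pos_of_pos (by linarith) _
      by_cases hc : lx y' ≤ 51 / 50 * lx y
      · refine le_trans (h y hyy0 y' (by omega) hc) ?_
        exact mul_le_mul_of_nonneg_right hCC' hpw.le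
      · push Not at hc
        have hlog2 := Real.log_two_lt_d9
        obtain ⟨h1, h2, h3⟩ := log_floor_exp (a := 51 / 50 * lx y) (by linarith)
        set z := ⌊Real.exp (51 / 50 * lx y)⌋₊ with hz
        have hz1 : lx z ≤ 51 / 50 * lx y := h1
        have hz2 : 101 / 100 * lx y ≤ lx z := by
          have : 51 / 50 * lx y - Real.log 2 ≤ lx z := h2
          linarith
        have hyz : y < z := by
          by_contra hcon
          push Not at hcon
          have : lx z ≤ lx y := Real.log_le_log h3 (by exact_mod_cast hcon)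
          linarith
        have hy'pos : (0 : ℝ) < y' := by
          have : (y : ℝ) ≤ y' := by exact_mod_cast (by omega : y ≤ y')
          linarith
        have hzy' : z < y' := by
          by_contra hcon
          push Not at hcon
          have : lx y' ≤ lx z := Real.log_le_log hy'pos (by exact_mod_cast hcon)
          linarith
        have hzF := h y hyy0 z hyz.le hz1
        have hzF' := ih (y' - z) (by omega) z (le_trans hy hyz.le) y' (by omega)
        have hmono : (lx z) ^ (-(1 : ℝ) / 5) ≤ ρ * (lx y) ^ (-(1 : ℝ) / 5) := by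
          rw [hρ, ← Real.mul_rpow (by norm_num) (by linarith)]
          exact Real.rpow_le_rpow_of_nonpos (by linarith) hz2 (by norm_num)
        have htri : |F y' - F y| ≤ |F y' - F z| + |F z - F y| := abs_sub_le _ _ _
        calc |F y' - F y| ≤ |F y' - F z| + |F z - F y| := htri
          _ ≤ C' * (lx z) ^ (-(1 : ℝ) / 5) + C * (lx y) ^ (-(1 : ℝ) / 5) := add_le_add hzF' hzF
          _ ≤ C' * (ρ * (lx y) ^ (-(1 : ℝ) / 5)) + C * (lx y) ^ (-(1 : ℝ) / 5) := by
              have := mul_le_mul_of_nonneg_left hmono hC'0.le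
              linarith
          _ = C' * (lx y) ^ (-(1 : ℝ) / 5) := by
              rw [hC'C]
              ring
  intro y hy y' hy'
  exact main (y' - y) y hy y' (by omega)

theorem limit_u : ∃ C : ℝ, ∃ y1 : ℕ, ∀ S : Set ℕ, (∀ n, 0 < n → (n ∈ S ↔ col n ∈ S)) →
    ∃ s : ℝ, HasDens S s ∧ ∀ y ≥ y1, |LL y S - s| ≤ C * (lx y) ^ (-(1 : ℝ) / 5) := by
  classical
  obtain ⟨C, hC, y0, hy0⟩ := LL_osc
  obtain ⟨C', y1, hy1u⟩ := cauchy_scales_u hC y0
  refine ⟨C', y1, fun S hS => ?_⟩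
  have hy1 := hy1u (fun y => LL y S) (hy0 S hS)
  obtain ⟨s, hs⟩ := exists_limit (fun y => LL y S) y1 hy1
  have h1 : Filter.Tendsto (fun y => nu y S - LL y S) Filter.atTop (nhds 0) := by
    rw [Metric.tendsto_atTop]
    intro ε hε
    obtain ⟨y2, hy2⟩ := nu_LL (half_pos hε)
    refine ⟨y2, fun y hy => ?_⟩
    rw [Real.dist_eq, sub_zero]
    have := hy2 S hS y hy
    linarith
  have h2 : Filter.Tendsto (fun y => nu y S) Filter.atTop (nhds s) := by
    have h3 := h1.add hs
    rw [zero_add] at h3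
    refine h3.congr fun y => ?_
    ring
  refine ⟨s, ?_, ?_⟩
  · have h3 := full_density S hS s (odd_density S s h2)
    unfold HasDens
    refine h3.congr fun X => ?_
    congr 2
    symm
    refine Nat.subtype_card _ ?_
    intro n
    rw [Finset.mem_filter, Finset.mem_Icc]
    tauto
  · intro y hy
    have h3 : Filter.Tendsto (fun y' => |LL y' S - LL y S|) Filter.atTop
        (nhds |s - LL y S|) := (hs.sub_const _).abs
    have h4 : |s - LL y S| ≤ C' * (lx y) ^ (-(1 : ℝ) / 5) := by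
      refine le_of_tendsto h3 ?_
      filter_upwards [Filter.eventually_ge_atTop y] with y' hy'
      exact hy1 y hy y' hy'
    rw [abs_sub_comm]
    exact h4

theorem wsum_rate_u : ∃ C : ℝ, 0 < C ∧ ∃ y1 : ℕ, ∀ S : Set ℕ, (∀ n, 0 < n → (n ∈ S ↔ col n ∈ S)) →
    ∀ g : ℕ → Bool, (∀ n, 0 < n → (g n = true ↔ n ∈ S)) →
    ∃ s : ℝ, HasDens S s ∧ ∀ y ≥ y1,
      |(wsum g y : ℝ) / wsum (fun _ => true) y - s| ≤ C * (lx y) ^ (-(1 : ℝ) / 5) := by
  classical
  obtain ⟨C', y1, hlim⟩ := limit_u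
  obtain ⟨C1, hC1⟩ := LL_univ
  have h2 : 0 < Real.log 2 := Real.log_pos (by norm_num)
  set c : ℝ := Real.log 2 / 2 with hc
  have hc0 : 0 < c := by positivity
  set K : ℝ := 1 + |C1| + c * |C1| with hK
  have hK0 : 1 ≤ K := by
    have h3 := abs_nonneg C1
    have h4 := mul_nonneg hc0.le h3
    rw [hK]
    linarith
  obtain ⟨y2, hy2⟩ := E2_lx_large 1
  refine ⟨|C'| + 2 * (1 + K * K) / c, by positivity, max y1 (max y2 (max 1 ⌈2 * K / c⌉₊)), ?_⟩
  intro S hS g hg
  obtain ⟨s, hdens, hrate⟩ := hlim S hS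
  refine ⟨s, hdens, ?_⟩
  intro y hy
  have hyy1 : y1 ≤ y := le_trans (le_max_left _ _) hy
  have hyy2 : y2 ≤ y := le_trans (le_trans (le_max_left _ _) (le_max_right _ _)) hy
  have hyy3 : 1 ≤ y := le_trans (le_trans (le_max_left _ _) (le_trans (le_max_right _ _)
    (le_max_right _ _))) hy
  have hyy4 : ⌈2 * K / c⌉₊ ≤ y := le_trans (le_trans (le_max_right _ _) (le_trans
    (le_max_right _ _) (le_max_right _ _))) hy
  have hyR : (1 : ℝ) ≤ y := by exact_mod_cast hyy3
  have hy0 : (0 : ℝ) < y := by linarith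
  have hbig : 2 * K ≤ c * y := by
    have h3 : 2 * K / c ≤ (y : ℝ) := le_trans (Nat.le_ceil _) (by exact_mod_cast hyy4)
    rw [div_le_iff₀ hc0] at h3
    linarith
  have hl := hy2 y hyy2
  obtain ⟨h3, h4⟩ := G3a_wsum S g hg y
  obtain ⟨h5, h6⟩ := G3a_wsum Set.univ (fun _ => true) (fun n _ => by simp) y
  rw [← hc] at h3 h4 h5 h6
  have h7 := hC1 y hyy3
  have h8 : |LL y Set.univ - 1| ≤ |C1| / y :=
    h7.trans (div_le_div_of_nonneg_right (le_abs_self _) hy0.le)
  have h9 : LL y S ≤ K := by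
    have h10 := LL_mono y (G := S) (G' := Set.univ) (fun _ _ _ => Set.mem_univ _)
    have h11 := (abs_le.1 h8).2
    have h12 : |C1| / y ≤ |C1| := div_le_self (abs_nonneg _) hyR
    have h13 := mul_nonneg hc0.le (abs_nonneg C1)
    rw [hK]
    linarith
  have h10 : |(wsum (fun _ => true) y : ℝ) - c * (y : ℝ) ^ 2| ≤ K * y := by
    have h11 : |(y : ℝ) ^ 2 * (c * LL y Set.univ) - c * (y : ℝ) ^ 2| ≤ c * |C1| * y := by
      have h12 : (y : ℝ) ^ 2 * (c * LL y Set.univ) - c * (y : ℝ) ^ 2 =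
          c * (y : ℝ) ^ 2 * (LL y Set.univ - 1) := by ring
      rw [h12, abs_mul, abs_of_nonneg (by positivity)]
      calc c * (y : ℝ) ^ 2 * |LL y Set.univ - 1| ≤ c * (y : ℝ) ^ 2 * (|C1| / y) :=
            mul_le_mul_of_nonneg_left h8 (by positivity)
        _ = c * |C1| * y := by
            field_simp
    have h13 := abs_le.1 h11
    have h14 := mul_nonneg (abs_nonneg C1) hy0.le
    rw [abs_le, hK]
    constructor <;> nlinarith
  have h11 : |(wsum g y : ℝ) - c * (y : ℝ) ^ 2 * LL y S| ≤ y := by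
    have h12 : c * (y : ℝ) ^ 2 * LL y S = (y : ℝ) ^ 2 * (c * LL y S) := by ring
    rw [h12, abs_le]
    constructor <;> linarith
  have h12 := G3a_real hc0 hyR (LL_nonneg y S) h9 h10 h11 hbig
  have h13 := hrate y hyy1
  have hl0 : 0 < lx y := by linarith
  have h14 : 1 / (y : ℝ) ≤ (lx y) ^ (-(1 : ℝ) / 5) := by
    have h15 : lx y ≤ (y : ℝ) := by
      unfold lx
      have := Real.log_le_sub_one_of_pos hy0
      linarith
    have h16 : (lx y) ^ (-(1 : ℝ)) ≤ (lx y) ^ (-(1 : ℝ) / 5) :=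
      Real.rpow_le_rpow_of_exponent_le hl (by norm_num)
    have h17 : 1 / (y : ℝ) ≤ (lx y) ^ (-(1 : ℝ)) := by
      rw [Real.rpow_neg_one, ← one_div]
      exact one_div_le_one_div_of_le hl0 h15
    exact h17.trans h16
  have hp : 0 ≤ (lx y) ^ (-(1 : ℝ) / 5) := Real.rpow_nonneg hl0.le _
  have h15 : |LL y S - s| ≤ |C'| * (lx y) ^ (-(1 : ℝ) / 5) :=
    h13.trans (mul_le_mul_of_nonneg_right (le_abs_self _) hp)
  have h16 : (2 * (1 + K * K) / c) / y ≤ (2 * (1 + K * K) / c) * (lx y) ^ (-(1 : ℝ) / 5) := by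
    rw [div_eq_mul_one_div (2 * (1 + K * K) / c) (y : ℝ)]
    exact mul_le_mul_of_nonneg_left h14 (by positivity)
  calc |(wsum g y : ℝ) / wsum (fun _ => true) y - s|
      ≤ |(wsum g y : ℝ) / wsum (fun _ => true) y - LL y S| + |LL y S - s| := abs_sub_le _ _ _
    _ ≤ (2 * (1 + K * K) / c) * (lx y) ^ (-(1 : ℝ) / 5) + |C'| * (lx y) ^ (-(1 : ℝ) / 5) :=
        add_le_add (h12.trans h16) h15
    _ = (|C'| + 2 * (1 + K * K) / c) * (lx y) ^ (-(1 : ℝ) / 5) := by ring

end Pool.Agent.W_e21d3a_h69
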