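import Pool.Agent.W_e21d3a_h69.U1
import Pool.Agent.W_e21d3a_h93.G3b
import Pool.Agent.W_e21d3a_h93.G3c
import Pool.Agent.W_e21d3a_h93.CE1
import Pool.Agent.W_e21d3a_h93.G2

set_option autoImplicit false

/-!
# U2: components of the Collatz graph, joint enumerations
-/

namespace Pool.Agent.W_e21d3a_h69

open Pool.Agent.W_e21d3a_h93

/-- the component of `n`: the positive integers whose orbit meets the orbit of `n` -/
def Comp (n : ℕ) : Set ℕ := {x | 0 < x ∧ ∃ a b : ℕ, col^[a] x = col^[b] n}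

theorem col_pos {n : ℕ} (h : 0 < n) : 0 < col n := by
  unfold col
  split <;> omega

theorem iter_pos {n : ℕ} (h : 0 < n) (k : ℕ) : 0 < col^[k] n := by
  induction k with
  | zero => exact h
  | succ k ih =>
    rw [Function.iterate_succ_apply']
    exact col_pos ih

theorem Comp_inv (n : ℕ) : ∀ x, 0 < x → (x ∈ Comp n ↔ col x ∈ Comp n) := by
  intro x hx
  constructor
  · rintro ⟨_, a, b, h⟩
    refine ⟨col_pos hx, a, b + 1, ?_⟩
    rw [← Function.iterate_succ_apply, Function.iterate_succ_apply', h,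
      Function.iterate_succ_apply']
  · rintro ⟨_, a, b, h⟩
    exact ⟨hx, a + 1, b, by rwa [Function.iterate_succ_apply]⟩

theorem Comp_self {n : ℕ} (h : 0 < n) : n ∈ Comp n := ⟨h, 0, 0, rfl⟩

theorem Comp_symm {n x : ℕ} (hn : 0 < n) (h : x ∈ Comp n) : n ∈ Comp x := by
  obtain ⟨_, a, b, h⟩ := h
  exact ⟨hn, b, a, h.symm⟩

theorem Comp_trans {n x z : ℕ} (h : x ∈ Comp n) (h' : z ∈ Comp x) : z ∈ Comp n := by
  obtain ⟨_, a, b, h⟩ := h
  obtain ⟨hz, c, e, h'⟩ := h'
  refine ⟨hz, a + c, e + b, ?_⟩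
  rw [Function.iterate_add_apply, h', ← Function.iterate_add_apply, Nat.add_comm a e,
    Function.iterate_add_apply, h, ← Function.iterate_add_apply]

theorem inv_iter {S : Set ℕ} (hS : ∀ n, 0 < n → (n ∈ S ↔ col n ∈ S)) {n : ℕ} (hn : 0 < n) (k : ℕ) :
    n ∈ S ↔ col^[k] n ∈ S := by
  induction k with
  | zero => rfl
  | succ k ih =>
    rw [Function.iterate_succ_apply']
    exact ih.trans (hS _ (iter_pos hn k))

theorem Comp_sub {S : Set ℕ} (hS : ∀ n, 0 < n → (n ∈ S ↔ col n ∈ S)) {n x : ℕ} (hn : 0 < n)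
    (hx : x ∈ Comp n) : x ∈ S ↔ n ∈ S := by
  obtain ⟨hx0, a, b, h⟩ := hx
  rw [inv_iter hS hx0 a, h, ← inv_iter hS hn b]

theorem iter_primrec : Primrec₂ (fun k n : ℕ => col^[k] n) :=
  (Primrec.nat_iterate Primrec.fst Primrec.snd (CE1_col_primrec.comp Primrec.snd).to₂)

/-- the union of a c.e. set with the component of `n`, enumerated uniformly in `n` -/
theorem union_stages (p : ℕ → Prop) (h : REPred p) :
    ∃ g : ℕ → ℕ → ℕ → Bool,
      Computable (fun q : (ℕ × ℕ) × ℕ => g q.1.1 q.1.2 q.2) ∧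
      (∀ n x, (p x ∨ ∃ a b : ℕ, col^[a] x = col^[b] n) ↔ ∃ s, g n x s = true) ∧
      ∀ n x s s', s ≤ s' → g n x s = true → g n x s' = true := by
  obtain ⟨g0, hg0, hpg, _⟩ := exists_stages p h
  have hre : REPred (fun k : ℕ => p k.unpair.2 ∨
      ∃ a b : ℕ, col^[a] k.unpair.2 = col^[b] k.unpair.1) := by
    have h1 : Computable₂ (fun k s : ℕ => g0 k.unpair.2 s ||
        decide (col^[s.unpair.1] k.unpair.2 = col^[s.unpair.2] k.unpair.1)) := by
      have hk : Computable (fun q : ℕ × ℕ => q.1.unpair.2) :=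
        (Primrec.snd.comp (Primrec.unpair.comp Primrec.fst)).to_comp
      have e1 : Computable (fun q : ℕ × ℕ => g0 q.1.unpair.2 q.2) :=
        hg0.comp hk Computable.snd
      have e2 : Primrec (fun q : ℕ × ℕ =>
          decide (col^[q.2.unpair.1] q.1.unpair.2 = col^[q.2.unpair.2] q.1.unpair.1)) := by
        have f1 : Primrec (fun q : ℕ × ℕ => col^[q.2.unpair.1] q.1.unpair.2) :=
          iter_primrec.comp (Primrec.fst.comp (Primrec.unpair.comp Primrec.snd))
            (Primrec.snd.comp (Primrec.unpair.comp Primrec.fst))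
        have f2 : Primrec (fun q : ℕ × ℕ => col^[q.2.unpair.2] q.1.unpair.1) :=
          iter_primrec.comp (Primrec.snd.comp (Primrec.unpair.comp Primrec.snd))
            (Primrec.fst.comp (Primrec.unpair.comp Primrec.fst))
        exact (Primrec.eq.comp f1 f2).decide
      exact Primrec.or.to_comp.comp e1 e2.to_comp
    have h3 : Partrec fun k : ℕ => Nat.rfind fun s => (Part.some (g0 k.unpair.2 s ||
        decide (col^[s.unpair.1] k.unpair.2 = col^[s.unpair.2] k.unpair.1)) : Part Bool) :=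
      Partrec.rfind (p := fun k s : ℕ => (Part.some (g0 k.unpair.2 s ||
        decide (col^[s.unpair.1] k.unpair.2 = col^[s.unpair.2] k.unpair.1)) : Part Bool)) h1
    refine h3.dom_re.of_eq fun k => Nat.rfind_dom.trans ?_
    constructor
    · rintro ⟨s, hs, _⟩
      have hs' : (g0 k.unpair.2 s ||
        decide (col^[s.unpair.1] k.unpair.2 = col^[s.unpair.2] k.unpair.1)) = true := by
        simpa using hs
      rw [Bool.or_eq_true] at hs'
      rcases hs' with hs' | hs'
      · exact Or.inl ((hpg _).2 ⟨s, hs'⟩)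
      · exact Or.inr ⟨_, _, of_decide_eq_true hs'⟩
    · rintro (hp | ⟨a, b, hab⟩)
      · obtain ⟨s, hs⟩ := (hpg _).1 hp
        exact ⟨s, by simp [hs], fun _ => trivial⟩
      · refine ⟨Nat.pair a b, ?_, fun _ => trivial⟩
        simp [hab]
  obtain ⟨g, hg, hgg, hmono⟩ := exists_stages _ hre
  refine ⟨fun n x s => g (Nat.pair n x) s, ?_, fun n x => ?_, fun n x s s' h => hmono _ s s' h⟩
  · have h1 : Computable (fun q : (ℕ × ℕ) × ℕ => Nat.pair q.1.1 q.1.2) :=
      (Primrec₂.natPair.comp (Primrec.fst.comp Primrec.fst)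
        (Primrec.snd.comp Primrec.fst)).to_comp
    exact hg.comp h1 Computable.snd
  · rw [← hgg (Nat.pair n x), Nat.unpair_pair]

end Pool.Agent.W_e21d3a_h69
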