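import Pool.Agent.W_e21d3a_h69.U2

set_option autoImplicit false

/-!
# U3: the certificate: non-members in components of positive density are recognised
-/

namespace Pool.Agent.W_e21d3a_h69

open Pool.Agent.W_e21d3a_h93

theorem hasDens_congr {S T : Set ℕ} (h : ∀ n, 0 < n → (n ∈ S ↔ n ∈ T)) {s : ℝ} (hs : HasDens S s) :
    HasDens T s := by
  refine hs.congr fun X => ?_
  congr 2
  refine Nat.card_congr (Equiv.subtypeEquivRight fun n => ?_)
  constructor
  · rintro ⟨h1, h2, h3⟩
    exact ⟨h1, h2, (h n h1).1 h3⟩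
  · rintro ⟨h1, h2, h3⟩
    exact ⟨h1, h2, (h n h1).2 h3⟩

theorem hasDens_union {S T : Set ℕ} (h : ∀ n, 0 < n → n ∈ S → n ∉ T) {s t : ℝ} (hs : HasDens S s)
    (ht : HasDens T t) : HasDens (S ∪ T) (s + t) := by
  classical
  refine (hs.add ht).congr fun X => ?_
  rw [← add_div]
  congr 1
  have e : ∀ Q : Set ℕ, (Nat.card {n : ℕ // 1 ≤ n ∧ n ≤ X ∧ n ∈ Q} : ℕ) =
      ((Finset.Icc 1 X).filter (fun n => n ∈ Q)).card := by
    intro Q
    refine Nat.subtype_card _ ?_
    intro n
    rw [Finset.mem_filter, Finset.mem_Icc]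
    tauto
  rw [e, e, e, ← Nat.cast_add, ← Finset.card_union_of_disjoint]
  · congr 2
    ext n
    simp only [Finset.mem_union, Finset.mem_filter, Set.mem_union]
    tauto
  · rw [Finset.disjoint_left]
    intro n hn hn'
    rw [Finset.mem_filter, Finset.mem_Icc] at hn hn'
    exact h n (by omega) hn.2 hn'.2

theorem hasDens_nonneg {S : Set ℕ} {s : ℝ} (hs : HasDens S s) : 0 ≤ s :=
  ge_of_tendsto' hs fun X => by positivity

/-- **The certificate.** -/
theorem cert (S : Set ℕ) (hS : ∀ n, 0 < n → (n ∈ S ↔ col n ∈ S))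
    (hc : REPred (fun n => n ∈ S)) (s : ℝ) (hs : HasDens S s)
    (hcomp : ∃ q : ℕ → ℕ, Computable q ∧ ∀ n : ℕ, |s * (n + 1) - q n| ≤ 1) :
    ∃ T : ℕ → ℕ → Bool, Computable₂ T ∧
      (∀ n k, 0 < n → T n k = true → n ∉ S) ∧
      (∀ n, 0 < n → n ∉ S → ∀ r : ℝ, HasDens (Comp n) r → 0 < r → ∃ k, T n k = true) := by
  classical
  obtain ⟨g, hg, hgg, hmono⟩ := union_stages _ hc
  obtain ⟨q, hq, hqs⟩ := hcomp
  obtain ⟨C, hC, y1, hrate⟩ := wsum_rate_u
  obtain ⟨K, hK⟩ := G3c_prec hC y1
  set a : ℕ → ℕ → ℕ → ℕ := fun n m t => wsum (fun x => g n x t) (G3c_y K m) with ha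
  set b : ℕ → ℕ := fun m => wsum (fun _ => true) (G3c_y K m) with hb
  -- the union of `S` and the component of `n`
  set U : ℕ → Set ℕ := fun n => {x | x ∈ S ∨ ∃ a b : ℕ, col^[a] x = col^[b] n} with hU
  have hUinv : ∀ n x, 0 < x → (x ∈ U n ↔ col x ∈ U n) := by
    intro n x hx
    have h1 := Comp_inv n x hx
    have h2 : ∀ z, 0 < z → (z ∈ Comp n ↔ ∃ a b : ℕ, col^[a] z = col^[b] n) := fun z hz =>
      ⟨fun h => h.2, fun h => ⟨hz, h⟩⟩
    have h3 := hS x hx
    rw [h2 x hx, h2 _ (col_pos hx)] at h1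
    simp only [hU, Set.mem_setOf_eq]
    rw [h1, h3]
  set h : ℕ → ℕ → Bool := fun n x => decide (x ∈ U n) with hh
  have hgh : ∀ n x, h n x = true ↔ ∃ t, g n x t = true := by
    intro n x
    simp only [hh, decide_eq_true_eq]
    exact hgg n x
  have hb0 : ∀ n : ℕ, ∃ s' : ℝ, HasDens (U n) s' ∧ ∀ m : ℕ,
      |(wsum (h n) (G3c_y K m) : ℝ) / b m - s'| ≤ 1 / (4 * (m + 1)) := by
    intro n
    obtain ⟨s', h1, h2⟩ := hrate (U n) (hUinv n) (h n) (fun x _ => by simp [hh])
    exact ⟨s', h1, fun m => (h2 _ (hK m).1).trans (hK m).2⟩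
  refine ⟨fun n k => decide ((q k.unpair.1 + 2) * b k.unpair.1 <
    a n k.unpair.1 k.unpair.2 * (k.unpair.1 + 1)), ?_, ?_, ?_⟩
  · -- computability
    have hy : Computable (G3c_y K) := (G3c_y_primrec K).to_comp
    have hu1 : Computable (fun p : ℕ × ℕ => p.2.unpair.1) :=
      Computable.fst.comp (Computable.unpair.comp Computable.snd)
    have hu2 : Computable (fun p : ℕ × ℕ => p.2.unpair.2) :=
      Computable.snd.comp (Computable.unpair.comp Computable.snd)
    have hb1 : Computable b :=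
      (wsum_computable (fun _ _ => true) (Computable.const true).to₂).comp
        (Computable.const 0) hy
    have ha1 : Computable (fun p : ℕ × ℕ => a p.1 p.2.unpair.1 p.2.unpair.2) := by
      have h1 : Computable₂ (fun (x : ℕ) (w : ℕ) => g w.unpair.1 x w.unpair.2) := by
        have e1 : Computable (fun p : ℕ × ℕ => ((p.2.unpair.1, p.1), p.2.unpair.2)) :=
          (Computable.pair (Computable.fst.comp (Computable.unpair.comp Computable.snd))
            Computable.fst).pair (Computable.snd.comp (Computable.unpair.comp Computable.snd))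
        exact hg.comp e1
      have h2 := wsum_computable (fun x w => g w.unpair.1 x w.unpair.2) h1
      have h3 : Computable (fun p : ℕ × ℕ => Nat.pair p.1 p.2.unpair.2) :=
        (Primrec₂.natPair.to_comp).comp Computable.fst hu2
      have h4 := h2.comp h3 (hy.comp hu1)
      refine h4.of_eq fun p => ?_
      simp only [Nat.unpair_pair, ha]
    have hadd : Computable₂ (fun a b : ℕ => a + b) := Primrec.nat_add.to_comp
    have hmul : Computable₂ (fun a b : ℕ => a * b) := Primrec.nat_mul.to_comp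
    have hlt : Computable₂ (fun a b : ℕ => decide (a < b)) := Primrec.nat_lt.decide.to_comp
    have e1 : Computable (fun p : ℕ × ℕ => (q p.2.unpair.1 + 2) * b p.2.unpair.1) :=
      hmul.comp (hadd.comp (hq.comp hu1) (Computable.const 2)) (hb1.comp hu1)
    have e2 : Computable (fun p : ℕ × ℕ => a p.1 p.2.unpair.1 p.2.unpair.2 * (p.2.unpair.1 + 1)) :=
      hmul.comp ha1 (hadd.comp hu1 (Computable.const 1))
    exact hlt.comp e1 e2
  · -- soundness
    intro n k hn hT hnS
    set m := k.unpair.1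
    set t := k.unpair.2
    have hT' : (q m + 2) * b m < a n m t * (m + 1) := of_decide_eq_true hT
    obtain ⟨s', hs', hr⟩ := hb0 n
    have hUS : s' = s := by
      refine G3c_unique hs' (hasDens_congr (fun x hx => ?_) hs)
      simp only [hU, Set.mem_setOf_eq]
      constructor
      · exact Or.inl
      · rintro (h1 | h1)
        · exact h1
        · exact (Comp_sub hS hn ⟨hx, h1⟩).2 hnS
    subst hUS
    have h1 : a n m t ≤ wsum (h n) (G3c_y K m) :=
      wsum_mono _ _ (fun x hx => (hgh n x).2 ⟨t, hx⟩) _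
    have h2 := (abs_le.1 (hr m)).2
    have h3 := (abs_le.1 (hqs m)).2
    have hm : (0 : ℝ) < (m : ℝ) + 1 := by positivity
    have hbpos : (0 : ℝ) < b m := by
      rcases Nat.eq_zero_or_pos (b m) with h0 | h0
      · exfalso
        have h4 : wsum (h n) (G3c_y K m) ≤ b m := wsum_mono _ _ (fun _ _ => rfl) _
        rw [h0] at h4
        have h5 : a n m t = 0 := by omega
        rw [h5] at hT'
        omega
      · exact_mod_cast h0
    have h4 : ((q m : ℝ) + 2) * b m < (a n m t : ℝ) * (m + 1) := by exact_mod_cast hT'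
    have h5 : (a n m t : ℝ) ≤ wsum (h n) (G3c_y K m) := by exact_mod_cast h1
    have h6 : (wsum (h n) (G3c_y K m) : ℝ) ≤ (s' + 1 / (4 * (m + 1))) * b m := by
      have : (wsum (h n) (G3c_y K m) : ℝ) / b m ≤ s' + 1 / (4 * (m + 1)) := by linarith
      rwa [div_le_iff₀ hbpos] at this
    have h7 : (a n m t : ℝ) * (m + 1) ≤ (s' + 1 / (4 * (m + 1))) * b m * (m + 1) :=
      mul_le_mul_of_nonneg_right (h5.trans h6) hm.le
    have h8 : (s' + 1 / (4 * ((m : ℝ) + 1))) * b m * (m + 1) = (s' * (m + 1) + 1 / 4) * b m := by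
      field_simp
    have h9 : (s' * ((m : ℝ) + 1) + 1 / 4) * b m ≤ ((q m : ℝ) + 2) * b m := by
      refine mul_le_mul_of_nonneg_right ?_ hbpos.le
      linarith
    linarith
  · -- completeness
    intro n hn hnS r hr0 hr
    obtain ⟨s', hs', hrm⟩ := hb0 n
    have hUS : s' = s + r := by
      refine G3c_unique hs' (hasDens_congr (fun x hx => ?_) (hasDens_union (fun x hx hxS hxC => ?_) hs hr0))
      · simp only [hU, Set.mem_setOf_eq, Set.mem_union]
        exact or_congr Iff.rfl ⟨fun h => h.2, fun h => ⟨hx, h⟩⟩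
      · exact hnS ((Comp_sub hS hn hxC).1 hxS)
    obtain ⟨m, hm⟩ := exists_nat_gt (4 / r)
    have hm1 : (0 : ℝ) < (m : ℝ) + 1 := by positivity
    obtain ⟨t, ht⟩ := wsum_stage (fun x t => g n x t) (h n) (hgh n) (hmono n) (G3c_y K m)
    refine ⟨Nat.pair m t, ?_⟩
    simp only [Nat.unpair_pair, decide_eq_true_eq]
    have h1 : a n m t = wsum (h n) (G3c_y K m) := ht
    have h2 := (abs_le.1 (hrm m)).1
    have h3 := (abs_le.1 (hqs m)).1
    have h4 : 4 < r * (m + 1) := by
      rw [div_lt_iff₀ hr] at hm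
      nlinarith
    have hbpos : (0 : ℝ) < b m := by
      rcases Nat.eq_zero_or_pos (b m) with h0 | h0
      · exfalso
        rw [h0] at h2
        simp only [Nat.cast_zero, div_zero, zero_sub] at h2
        have h5 := hasDens_nonneg hs
        have h6 : 1 / (4 * ((m : ℝ) + 1)) * (m + 1) = 1 / 4 := by field_simp
        have h7 : s' ≤ 1 / (4 * ((m : ℝ) + 1)) := by linarith
        have h8 := mul_le_mul_of_nonneg_right h7 hm1.le
        have h9 : (0 : ℝ) ≤ s * (m + 1) := by positivity
        rw [h6, hUS] at h8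
        nlinarith
      · exact_mod_cast h0
    have h5 : (s' - 1 / (4 * ((m : ℝ) + 1))) * b m ≤ wsum (h n) (G3c_y K m) := by
      have : s' - 1 / (4 * ((m : ℝ) + 1)) ≤ (wsum (h n) (G3c_y K m) : ℝ) / b m := by linarith
      rwa [le_div_iff₀ hbpos] at this
    have h6 : (s' - 1 / (4 * ((m : ℝ) + 1))) * b m * (m + 1) = (s' * (m + 1) - 1 / 4) * b m := by
      field_simp
    have h7 := mul_le_mul_of_nonneg_right h5 hm1.le
    have h8 : ((q m : ℝ) + 2) * b m < (s' * (m + 1) - 1 / 4) * b m := by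
      refine mul_lt_mul_of_pos_right ?_ hbpos
      rw [hUS]
      nlinarith
    have h9 : ((q m : ℝ) + 2) * b m < (a n m t : ℝ) * (m + 1) := by
      rw [h1]
      linarith
    exact_mod_cast h9

end Pool.Agent.W_e21d3a_h69
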