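import Pool.Agent.W_e21d3a_h69.U3
import Pool.Agent.W_e21d3a_h93.Bridge

set_option autoImplicit false

/-!
# U4: the errorless algorithm, its domain has density one
-/

namespace Pool.Agent.W_e21d3a_h69

open Pool.Agent.W_e21d3a_h93

/-- `s` is a computable real number -/
def CompReal (s : ℝ) : Prop := ∃ q : ℕ → ℕ, Computable q ∧ ∀ n : ℕ, |s * (n + 1) - q n| ≤ 1

/-- a partial computable function which decides `S` without errors -/
def Errorless (S : Set ℕ) (φ : ℕ →. Bool) : Prop :=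
  Partrec φ ∧ ∀ n, 0 < n → ∀ b ∈ φ n, (b = true ↔ n ∈ S)

theorem algorithm (S : Set ℕ) (hS : ∀ n, 0 < n → (n ∈ S ↔ col n ∈ S))
    (hc : REPred (fun n => n ∈ S)) (s : ℝ) (hs : HasDens S s) (hcomp : CompReal s) :
    ∃ φ : ℕ →. Bool, Errorless S φ ∧ ∀ n, 0 < n →
      (n ∈ S ∨ ∃ r : ℝ, HasDens (Comp n) r ∧ 0 < r) → (φ n).Dom := by
  obtain ⟨T, hT, hT1, hT2⟩ := cert S hS hc s hs hcomp
  obtain ⟨g, hg, hgg, _⟩ := exists_stages _ hc
  have h1 : Computable₂ (fun n k : ℕ => g n k || T n k) :=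
    Primrec.or.to_comp.comp (hg.comp Computable.fst Computable.snd)
      (hT.comp Computable.fst Computable.snd)
  have h2 : Partrec fun n : ℕ => Nat.rfind fun k => (Part.some (g n k || T n k) : Part Bool) :=
    Partrec.rfind (p := fun n k : ℕ => (Part.some (g n k || T n k) : Part Bool)) h1
  refine ⟨fun n => (Nat.rfind fun k => (Part.some (g n k || T n k) : Part Bool)).map
    (fun k => g n k), ⟨h2.map hg, ?_⟩, ?_⟩
  · intro n hn b hb
    rw [Part.mem_map_iff] at hb
    obtain ⟨k, hk, rfl⟩ := hb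
    have h3 := Nat.rfind_spec hk
    rw [Part.mem_some_iff] at h3
    have h4 : (g n k || T n k) = true := h3.symm
    constructor
    · intro h5
      exact (hgg n).2 ⟨k, h5⟩
    · intro h5
      by_contra h6
      rw [Bool.not_eq_true] at h6
      rw [h6, Bool.false_or] at h4
      exact hT1 n k hn h4 h5
  · intro n hn h
    rw [Part.map_Dom, Nat.rfind_dom]
    have h3 : ∃ k, (g n k || T n k) = true := by
      by_cases hnS : n ∈ S
      · obtain ⟨k, hk⟩ := (hgg n).1 hnS
        exact ⟨k, by rw [hk, Bool.true_or]⟩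
      · rcases h with h | ⟨r, hr, hr0⟩
        · exact absurd h hnS
        · obtain ⟨k, hk⟩ := hT2 n hn hnS r hr hr0
          exact ⟨k, by rw [hk, Bool.or_true]⟩
    obtain ⟨k, hk⟩ := h3
    exact ⟨k, by simpa using hk, fun _ => trivial⟩

theorem dens_exists (S : Set ℕ) (hS : ∀ n, 0 < n → (n ∈ S ↔ col n ∈ S)) : ∃ s, HasDens S s := by
  obtain ⟨_, _, h⟩ := limit_u
  obtain ⟨s, hs, _⟩ := h S hS
  exact ⟨s, hs⟩

open Classical in
theorem dens_iff' (S : Set ℕ) (s : ℝ) : HasDens S s ↔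
    Filter.Tendsto (fun X : ℕ => (((Finset.Icc 1 X).filter (fun n => n ∈ S)).card : ℝ) / X)
      Filter.atTop (nhds s) := by
  unfold HasDens
  have e : ∀ X : ℕ, (Nat.card {n : ℕ // 1 ≤ n ∧ n ≤ X ∧ n ∈ S} : ℕ) =
      ((Finset.Icc 1 X).filter (fun n => n ∈ S)).card := by
    intro X
    refine Nat.subtype_card _ ?_
    intro n
    rw [Finset.mem_filter, Finset.mem_Icc]
    tauto
  simp only [e]

theorem dens_univ : HasDens {n | 0 < n} 1 := by
  classical
  rw [dens_iff']
  refine tendsto_const_nhds.congr' ?_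
  filter_upwards [Filter.eventually_gt_atTop 0] with X hX
  have hX' : (X : ℝ) ≠ 0 := by positivity
  symm
  rw [div_eq_one_iff_eq hX']
  have : (Finset.Icc 1 X).filter (fun n => n ∈ {n : ℕ | 0 < n}) = Finset.Icc 1 X := by
    refine Finset.filter_true_of_mem fun n hn => ?_
    rw [Finset.mem_Icc] at hn
    exact hn.1
  have h2 := congrArg Finset.card this
  rw [Nat.card_Icc, Nat.add_sub_cancel] at h2
  refine Nat.cast_inj.2 (Eq.trans ?_ h2)
  congr

theorem sum_univ (S : ℕ → Set ℕ) (hS : ∀ i n, 0 < n → (n ∈ S i ↔ col n ∈ S i))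
    (hd : ∀ i j, i ≠ j → ∀ n, 0 < n → n ∈ S i → n ∉ S j) (s : ℕ → ℝ)
    (hs : ∀ i, HasDens (S i) (s i)) (t : ℝ) (ht : HasDens (⋃ i, S i) t) : HasSum s t := by
  classical
  obtain ⟨Cm, hC1, hC2⟩ := W_e21d3a_h93.Mix
  have hmix : E21.Mix Cm := ⟨hC1, hC2⟩
  exact W_e21d3a_h93.density_iUnion hmix S hS hd s (fun i => (dens_iff' _ _).1 (hs i)) t
    ((dens_iff' _ _).1 ht)

/-- the points in components of positive density have density one -/
theorem dens_positive : ∃ P : Set ℕ, HasDens P 1 ∧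
    ∀ n ∈ P, 0 < n ∧ ∃ r : ℝ, HasDens (Comp n) r ∧ 0 < r := by
  classical
  choose dC hdC using fun n : ℕ => dens_exists (Comp n) (Comp_inv n)
  set E : ℕ → Set ℕ := fun i => if 0 < i ∧ ∀ j ∈ Comp i, i ≤ j then Comp i else ∅ with hE
  have hEinv : ∀ i n, 0 < n → (n ∈ E i ↔ col n ∈ E i) := by
    intro i n hn
    simp only [hE]
    split
    · exact Comp_inv i n hn
    · simp
  have hmemE : ∀ i n, n ∈ E i → 0 < i ∧ (∀ j ∈ Comp i, i ≤ j) ∧ n ∈ Comp i := by
    intro i n hn
    simp only [hE] at hn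
    split at hn
    · next h => exact ⟨h.1, h.2, hn⟩
    · exact absurd hn (Set.notMem_empty n)
  have hEdis : ∀ i j, i ≠ j → ∀ n, 0 < n → n ∈ E i → n ∉ E j := by
    intro i j hij n hn hi hj
    obtain ⟨hi0, hi1, hi2⟩ := hmemE i n hi
    obtain ⟨hj0, hj1, hj2⟩ := hmemE j n hj
    have h1 : i ∈ Comp j := Comp_trans hj2 (Comp_symm hi0 hi2)
    have h2 : j ∈ Comp i := Comp_trans hi2 (Comp_symm hj0 hj2)
    have h3 := hi1 j h2
    have h4 := hj1 i h1
    exact hij (by omega)
  have hEuni : ∀ n, 0 < n → n ∈ ⋃ i, E i := by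
    intro n hn
    have hex : ∃ i, i ∈ Comp n := ⟨n, Comp_self hn⟩
    set i := Nat.find hex with hi
    have h1 : i ∈ Comp n := Nat.find_spec hex
    have hi0 : 0 < i := h1.1
    rw [Set.mem_iUnion]
    refine ⟨i, ?_⟩
    have h2 : 0 < i ∧ ∀ j ∈ Comp i, i ≤ j :=
      ⟨hi0, fun j hj => Nat.find_min' hex (Comp_trans h1 hj)⟩
    simp only [hE]
    rw [if_pos h2]
    exact Comp_symm hn h1
  choose dE hdE using fun i : ℕ => dens_exists (E i) (hEinv i)
  have hsum1 : HasSum dE 1 := by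
    refine sum_univ E hEinv hEdis dE hdE 1 ?_
    refine hasDens_congr (fun n hn => ?_) dens_univ
    exact ⟨fun _ => hEuni n hn, fun _ => hn⟩
  set E' : ℕ → Set ℕ := fun i => if 0 < dE i then E i else ∅ with hE'
  have hE'inv : ∀ i n, 0 < n → (n ∈ E' i ↔ col n ∈ E' i) := by
    intro i n hn
    simp only [hE']
    split
    · exact hEinv i n hn
    · simp
  have hsub : ∀ i n, n ∈ E' i → n ∈ E i ∧ 0 < dE i := by
    intro i n hn
    simp only [hE'] at hn
    split at hn
    · next h => exact ⟨hn, h⟩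
    · exact absurd hn (Set.notMem_empty n)
  have hE'dis : ∀ i j, i ≠ j → ∀ n, 0 < n → n ∈ E' i → n ∉ E' j :=
    fun i j hij n hn hi hj => hEdis i j hij n hn (hsub i n hi).1 (hsub j n hj).1
  have hdE' : ∀ i, HasDens (E' i) (dE i) := by
    intro i
    by_cases h : 0 < dE i
    · have : E' i = E i := by simp only [hE']; rw [if_pos h]
      rw [this]
      exact hdE i
    · have h0 : dE i = 0 := le_antisymm (not_lt.1 h) (hasDens_nonneg (hdE i))
      have : E' i = ∅ := by simp only [hE']; rw [if_neg h]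
      rw [this, h0]
      unfold HasDens
      simp
  have hUinv : ∀ n, 0 < n → (n ∈ (⋃ i, E' i) ↔ col n ∈ ⋃ i, E' i) := by
    intro n hn
    simp only [Set.mem_iUnion]
    exact exists_congr fun i => hE'inv i n hn
  obtain ⟨t, ht⟩ := dens_exists _ hUinv
  have ht1 : t = 1 := (sum_univ E' hE'inv hE'dis dE hdE' t ht).unique hsum1
  rw [ht1] at ht
  refine ⟨⋃ i, E' i, ht, ?_⟩
  intro n hn
  rw [Set.mem_iUnion] at hn
  obtain ⟨i, hi⟩ := hn
  obtain ⟨h1, h2⟩ := hsub i n hi
  obtain ⟨hi0, hi1, hi2⟩ := hmemE i n h1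
  refine ⟨hi2.1, dE i, ?_, h2⟩
  refine hasDens_congr (fun x hx => ?_) (hdE i)
  have e : E i = Comp i := by simp only [hE]; rw [if_pos ⟨hi0, hi1⟩]
  rw [e]
  constructor
  · intro h
    exact Comp_trans (Comp_symm hi0 hi2) h
  · intro h
    exact Comp_trans hi2 h

theorem dens_one_of_superset {P Q : Set ℕ} (hP : HasDens P 1) (h : ∀ n ∈ P, 0 < n → n ∈ Q) :
    HasDens Q 1 := by
  classical
  rw [dens_iff'] at hP ⊢
  refine tendsto_of_tendsto_of_tendsto_of_le_of_le' hP tendsto_const_nhds ?_ ?_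
  · filter_upwards with X
    have : ((Finset.Icc 1 X).filter (fun n => n ∈ P)).card ≤
        ((Finset.Icc 1 X).filter (fun n => n ∈ Q)).card := by
      refine Finset.card_le_card fun n hn => ?_
      rw [Finset.mem_filter, Finset.mem_Icc] at hn ⊢
      exact ⟨hn.1, h n hn.2 (by omega)⟩
    have h' : (((Finset.Icc 1 X).filter (fun n => n ∈ P)).card : ℝ) ≤
        ((Finset.Icc 1 X).filter (fun n => n ∈ Q)).card := by exact_mod_cast this
    exact div_le_div_of_nonneg_right h' (Nat.cast_nonneg X)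
  · filter_upwards [Filter.eventually_gt_atTop 0] with X hX
    have h1 : ((Finset.Icc 1 X).filter (fun n => n ∈ Q)).card ≤ X := by
      have := Finset.card_filter_le (Finset.Icc 1 X) (fun n => n ∈ Q)
      rw [Nat.card_Icc] at this
      omega
    have hX' : (0 : ℝ) < X := by exact_mod_cast hX
    rw [div_le_one hX']
    exact_mod_cast h1

end Pool.Agent.W_e21d3a_h69
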